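import Mathlib
import Pool.Agent.H354R2.Pratt

set_option autoImplicit false

namespace Pool.Agent.Y892.Mob

open ArithmeticFunction

theorem moebius_list : ∀ l : List ℕ, (∀ p ∈ l, p.Prime) → l.Nodup →
    moebius l.prod = (-1) ^ l.length := by
  intro l
  induction l with
  | nil => intro _ _; simp
  | cons a l ih =>
    intro hp hn
    rw [List.nodup_cons] at hn
    have ha : a.Prime := hp a (by simp)
    have hl : ∀ p ∈ l, p.Prime := fun p h => hp p (by simp [h])
    have hc : Nat.Coprime a l.prod := by
      rw [Nat.Prime.coprime_iff_not_dvd ha]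
      intro hd
      obtain ⟨x, hx, hax⟩ := (Prime.dvd_prod_iff ha.prime).mp hd
      have : a = x := (Nat.prime_dvd_prime_iff_eq ha (hl x hx)).mp hax
      subst this
      exact hn.1 hx
    rw [List.prod_cons, isMultiplicative_moebius.map_mul_of_coprime hc, moebius_apply_prime ha,
      ih hl hn.2, List.length_cons, pow_succ]
    ring

theorem pr18043 : Nat.Prime 18043 := by
  refine Pool.Agent.H354R2.pratt 18043 2 15 [2, 3, 31, 97] ?_ (by decide +kernel)
  intro q hq
  simp only [List.mem_cons, List.not_mem_nil, or_false] at hq
  rcases hq with rfl | rfl | rfl | rfl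
  · exact (by norm_num)
  · exact (by norm_num)
  · exact (by norm_num)
  · exact (by norm_num)

theorem pr506647441 : Nat.Prime 506647441 := by
  refine Pool.Agent.H354R2.pratt 506647441 7 29 [2, 2, 2, 2, 3, 3, 3, 5, 13, 18043] ?_ (by decide +kernel)
  intro q hq
  simp only [List.mem_cons, List.not_mem_nil, or_false] at hq
  rcases hq with rfl | rfl | rfl | rfl | rfl | rfl | rfl | rfl | rfl | rfl
  · exact (by norm_num)
  · exact (by norm_num)
  · exact (by norm_num)
  · exact (by norm_num)
  · exact (by norm_num)
  · exact (by norm_num)
  · exact (by norm_num)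
  · exact (by norm_num)
  · exact (by norm_num)
  · exact pr18043

theorem pr12713 : Nat.Prime 12713 := by
  refine Pool.Agent.H354R2.pratt 12713 3 14 [2, 2, 2, 7, 227] ?_ (by decide +kernel)
  intro q hq
  simp only [List.mem_cons, List.not_mem_nil, or_false] at hq
  rcases hq with rfl | rfl | rfl | rfl | rfl
  · exact (by norm_num)
  · exact (by norm_num)
  · exact (by norm_num)
  · exact (by norm_num)
  · exact (by norm_num)

theorem pr13241 : Nat.Prime 13241 := by
  refine Pool.Agent.H354R2.pratt 13241 3 14 [2, 2, 2, 5, 331] ?_ (by decide +kernel)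
  intro q hq
  simp only [List.mem_cons, List.not_mem_nil, or_false] at hq
  rcases hq with rfl | rfl | rfl | rfl | rfl
  · exact (by norm_num)
  · exact (by norm_num)
  · exact (by norm_num)
  · exact (by norm_num)
  · exact (by norm_num)

theorem pr44497 : Nat.Prime 44497 := by
  refine Pool.Agent.H354R2.pratt 44497 5 16 [2, 2, 2, 2, 3, 3, 3, 103] ?_ (by decide +kernel)
  intro q hq
  simp only [List.mem_cons, List.not_mem_nil, or_false] at hq
  rcases hq with rfl | rfl | rfl | rfl | rfl | rfl | rfl | rfl
  · exact (by norm_num)
  · exact (by norm_num)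
  · exact (by norm_num)
  · exact (by norm_num)
  · exact (by norm_num)
  · exact (by norm_num)
  · exact (by norm_num)
  · exact (by norm_num)

theorem pr245680297 : Nat.Prime 245680297 := by
  refine Pool.Agent.H354R2.pratt 245680297 10 28 [2, 2, 2, 3, 23, 23, 37, 523] ?_ (by decide +kernel)
  intro q hq
  simp only [List.mem_cons, List.not_mem_nil, or_false] at hq
  rcases hq with rfl | rfl | rfl | rfl | rfl | rfl | rfl | rfl
  · exact (by norm_num)
  · exact (by norm_num)
  · exact (by norm_num)
  · exact (by norm_num)
  · exact (by norm_num)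
  · exact (by norm_num)
  · exact (by norm_num)
  · exact (by norm_num)

theorem pr20047 : Nat.Prime 20047 := by
  refine Pool.Agent.H354R2.pratt 20047 3 15 [2, 3, 13, 257] ?_ (by decide +kernel)
  intro q hq
  simp only [List.mem_cons, List.not_mem_nil, or_false] at hq
  rcases hq with rfl | rfl | rfl | rfl
  · exact (by norm_num)
  · exact (by norm_num)
  · exact (by norm_num)
  · exact (by norm_num)

theorem pr26042255821 : Nat.Prime 26042255821 := by
  refine Pool.Agent.H354R2.pratt 26042255821 6 35 [2, 2, 3, 3, 5, 7, 1031, 20047] ?_ (by decide +kernel)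
  intro q hq
  simp only [List.mem_cons, List.not_mem_nil, or_false] at hq
  rcases hq with rfl | rfl | rfl | rfl | rfl | rfl | rfl | rfl
  · exact (by norm_num)
  · exact (by norm_num)
  · exact (by norm_num)
  · exact (by norm_num)
  · exact (by norm_num)
  · exact (by norm_num)
  · exact (by norm_num)
  · exact pr20047

theorem pr32633 : Nat.Prime 32633 := by
  refine Pool.Agent.H354R2.pratt 32633 3 15 [2, 2, 2, 4079] ?_ (by decide +kernel)
  intro q hq
  simp only [List.mem_cons, List.not_mem_nil, or_false] at hq
  rcases hq with rfl | rfl | rfl | rfl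
  · exact (by norm_num)
  · exact (by norm_num)
  · exact (by norm_num)
  · exact (by norm_num)

theorem pr153469 : Nat.Prime 153469 := by
  refine Pool.Agent.H354R2.pratt 153469 2 18 [2, 2, 3, 3, 3, 7, 7, 29] ?_ (by decide +kernel)
  intro q hq
  simp only [List.mem_cons, List.not_mem_nil, or_false] at hq
  rcases hq with rfl | rfl | rfl | rfl | rfl | rfl | rfl | rfl
  · exact (by norm_num)
  · exact (by norm_num)
  · exact (by norm_num)
  · exact (by norm_num)
  · exact (by norm_num)
  · exact (by norm_num)
  · exact (by norm_num)
  · exact (by norm_num)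

theorem pr998717 : Nat.Prime 998717 := by
  refine Pool.Agent.H354R2.pratt 998717 2 20 [2, 2, 17, 19, 773] ?_ (by decide +kernel)
  intro q hq
  simp only [List.mem_cons, List.not_mem_nil, or_false] at hq
  rcases hq with rfl | rfl | rfl | rfl | rfl
  · exact (by norm_num)
  · exact (by norm_num)
  · exact (by norm_num)
  · exact (by norm_num)
  · exact (by norm_num)

theorem pr3175920061 : Nat.Prime 3175920061 := by
  refine Pool.Agent.H354R2.pratt 3175920061 2 32 [2, 2, 3, 5, 53, 998717] ?_ (by decide +kernel)
  intro q hq
  simp only [List.mem_cons, List.not_mem_nil, or_false] at hq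
  rcases hq with rfl | rfl | rfl | rfl | rfl | rfl
  · exact (by norm_num)
  · exact (by norm_num)
  · exact (by norm_num)
  · exact (by norm_num)
  · exact (by norm_num)
  · exact pr998717

theorem pr30071 : Nat.Prime 30071 := by
  refine Pool.Agent.H354R2.pratt 30071 13 15 [2, 5, 31, 97] ?_ (by decide +kernel)
  intro q hq
  simp only [List.mem_cons, List.not_mem_nil, or_false] at hq
  rcases hq with rfl | rfl | rfl | rfl
  · exact (by norm_num)
  · exact (by norm_num)
  · exact (by norm_num)
  · exact (by norm_num)

theorem pr65106722101 : Nat.Prime 65106722101 := by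
  refine Pool.Agent.H354R2.pratt 65106722101 2 36 [2, 2, 3, 5, 5, 7, 1031, 30071] ?_ (by decide +kernel)
  intro q hq
  simp only [List.mem_cons, List.not_mem_nil, or_false] at hq
  rcases hq with rfl | rfl | rfl | rfl | rfl | rfl | rfl | rfl
  · exact (by norm_num)
  · exact (by norm_num)
  · exact (by norm_num)
  · exact (by norm_num)
  · exact (by norm_num)
  · exact (by norm_num)
  · exact (by norm_num)
  · exact pr30071

theorem pr13879 : Nat.Prime 13879 := by
  refine Pool.Agent.H354R2.pratt 13879 6 14 [2, 3, 3, 3, 257] ?_ (by decide +kernel)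
  intro q hq
  simp only [List.mem_cons, List.not_mem_nil, or_false] at hq
  rcases hq with rfl | rfl | rfl | rfl | rfl
  · exact (by norm_num)
  · exact (by norm_num)
  · exact (by norm_num)
  · exact (by norm_num)
  · exact (by norm_num)

theorem pr26042833181 : Nat.Prime 26042833181 := by
  refine Pool.Agent.H354R2.pratt 26042833181 2 35 [2, 2, 5, 7, 13, 1031, 13879] ?_ (by decide +kernel)
  intro q hq
  simp only [List.mem_cons, List.not_mem_nil, or_false] at hq
  rcases hq with rfl | rfl | rfl | rfl | rfl | rfl | rfl
  · exact (by norm_num)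
  · exact (by norm_num)
  · exact (by norm_num)
  · exact (by norm_num)
  · exact (by norm_num)
  · exact (by norm_num)
  · exact pr13879

theorem pr11717 : Nat.Prime 11717 := by
  refine Pool.Agent.H354R2.pratt 11717 2 14 [2, 2, 29, 101] ?_ (by decide +kernel)
  intro q hq
  simp only [List.mem_cons, List.not_mem_nil, or_false] at hq
  rcases hq with rfl | rfl | rfl | rfl
  · exact (by norm_num)
  · exact (by norm_num)
  · exact (by norm_num)
  · exact (by norm_num)

theorem pr1111333 : Nat.Prime 1111333 := by
  refine Pool.Agent.H354R2.pratt 1111333 5 21 [2, 2, 3, 37, 2503] ?_ (by decide +kernel)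
  intro q hq
  simp only [List.mem_cons, List.not_mem_nil, or_false] at hq
  rcases hq with rfl | rfl | rfl | rfl | rfl
  · exact (by norm_num)
  · exact (by norm_num)
  · exact (by norm_num)
  · exact (by norm_num)
  · exact (by norm_num)

theorem pr3937337 : Nat.Prime 3937337 := by
  refine Pool.Agent.H354R2.pratt 3937337 3 22 [2, 2, 2, 13, 17, 17, 131] ?_ (by decide +kernel)
  intro q hq
  simp only [List.mem_cons, List.not_mem_nil, or_false] at hq
  rcases hq with rfl | rfl | rfl | rfl | rfl | rfl | rfl
  · exact (by norm_num)
  · exact (by norm_num)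
  · exact (by norm_num)
  · exact (by norm_num)
  · exact (by norm_num)
  · exact (by norm_num)
  · exact (by norm_num)

theorem pr2456898289 : Nat.Prime 2456898289 := by
  refine Pool.Agent.H354R2.pratt 2456898289 11 32 [2, 2, 2, 2, 3, 13, 3937337] ?_ (by decide +kernel)
  intro q hq
  simp only [List.mem_cons, List.not_mem_nil, or_false] at hq
  rcases hq with rfl | rfl | rfl | rfl | rfl | rfl | rfl
  · exact (by norm_num)
  · exact (by norm_num)
  · exact (by norm_num)
  · exact (by norm_num)
  · exact (by norm_num)
  · exact (by norm_num)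
  · exact pr3937337

theorem pr1232269 : Nat.Prime 1232269 := by
  refine Pool.Agent.H354R2.pratt 1232269 2 21 [2, 2, 3, 29, 3541] ?_ (by decide +kernel)
  intro q hq
  simp only [List.mem_cons, List.not_mem_nil, or_false] at hq
  rcases hq with rfl | rfl | rfl | rfl | rfl
  · exact (by norm_num)
  · exact (by norm_num)
  · exact (by norm_num)
  · exact (by norm_num)
  · exact (by norm_num)

theorem pr103510597 : Nat.Prime 103510597 := by
  refine Pool.Agent.H354R2.pratt 103510597 2 27 [2, 2, 3, 7, 1232269] ?_ (by decide +kernel)
  intro q hq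
  simp only [List.mem_cons, List.not_mem_nil, or_false] at hq
  rcases hq with rfl | rfl | rfl | rfl | rfl
  · exact (by norm_num)
  · exact (by norm_num)
  · exact (by norm_num)
  · exact (by norm_num)
  · exact pr1232269

theorem pr121169 : Nat.Prime 121169 := by
  refine Pool.Agent.H354R2.pratt 121169 3 17 [2, 2, 2, 2, 7573] ?_ (by decide +kernel)
  intro q hq
  simp only [List.mem_cons, List.not_mem_nil, or_false] at hq
  rcases hq with rfl | rfl | rfl | rfl | rfl
  · exact (by norm_num)
  · exact (by norm_num)
  · exact (by norm_num)
  · exact (by norm_num)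
  · exact (by norm_num)

theorem pr1074673 : Nat.Prime 1074673 := by
  refine Pool.Agent.H354R2.pratt 1074673 11 21 [2, 2, 2, 2, 3, 3, 17, 439] ?_ (by decide +kernel)
  intro q hq
  simp only [List.mem_cons, List.not_mem_nil, or_false] at hq
  rcases hq with rfl | rfl | rfl | rfl | rfl | rfl | rfl | rfl
  · exact (by norm_num)
  · exact (by norm_num)
  · exact (by norm_num)
  · exact (by norm_num)
  · exact (by norm_num)
  · exact (by norm_num)
  · exact (by norm_num)
  · exact (by norm_num)

theorem run0 : moebius ((360844 + 0) ^ 2 + 1) = 1 := by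
  have h := moebius_list [257, 506647441] (by
    intro q hq
    simp only [List.mem_cons, List.not_mem_nil, or_false] at hq
    rcases hq with rfl | rfl
    · exact (by norm_num)
    · exact pr506647441) (by decide +kernel)
  norm_num at h ⊢
  exact h

theorem run1 : moebius ((360844 + 1) ^ 2 + 1) = 1 := by
  have h := moebius_list [2, 1913, 2677, 12713] (by
    intro q hq
    simp only [List.mem_cons, List.not_mem_nil, or_false] at hq
    rcases hq with rfl | rfl | rfl | rfl
    · exact (by norm_num)
    · exact (by norm_num)
    · exact (by norm_num)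
    · exact pr12713) (by decide +kernel)
  norm_num at h ⊢
  exact h

theorem run2 : moebius ((360844 + 2) ^ 2 + 1) = 1 := by
  have h := moebius_list [13, 17, 13241, 44497] (by
    intro q hq
    simp only [List.mem_cons, List.not_mem_nil, or_false] at hq
    rcases hq with rfl | rfl | rfl | rfl
    · exact (by norm_num)
    · exact (by norm_num)
    · exact pr13241
    · exact pr44497) (by decide +kernel)
  norm_num at h ⊢
  exact h

theorem run3 : moebius ((360844 + 3) ^ 2 + 1) = 1 := by
  have h := moebius_list [2, 5, 53, 245680297] (by
    intro q hq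
    simp only [List.mem_cons, List.not_mem_nil, or_false] at hq
    rcases hq with rfl | rfl | rfl | rfl
    · exact (by norm_num)
    · exact (by norm_num)
    · exact (by norm_num)
    · exact pr245680297) (by decide +kernel)
  norm_num at h ⊢
  exact h

theorem run4 : moebius ((360844 + 4) ^ 2 + 1) = 1 := by
  have h := moebius_list [5, 26042255821] (by
    intro q hq
    simp only [List.mem_cons, List.not_mem_nil, or_false] at hq
    rcases hq with rfl | rfl
    · exact (by norm_num)
    · exact pr26042255821) (by decide +kernel)
  norm_num at h ⊢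
  exact h

theorem run5 : moebius ((360844 + 5) ^ 2 + 1) = 1 := by
  have h := moebius_list [2, 13, 32633, 153469] (by
    intro q hq
    simp only [List.mem_cons, List.not_mem_nil, or_false] at hq
    rcases hq with rfl | rfl | rfl | rfl
    · exact (by norm_num)
    · exact (by norm_num)
    · exact pr32633
    · exact pr153469) (by decide +kernel)
  norm_num at h ⊢
  exact h

theorem run6 : moebius ((360844 + 6) ^ 2 + 1) = 1 := by
  have h := moebius_list [41, 3175920061] (by
    intro q hq
    simp only [List.mem_cons, List.not_mem_nil, or_false] at hq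
    rcases hq with rfl | rfl
    · exact (by norm_num)
    · exact pr3175920061) (by decide +kernel)
  norm_num at h ⊢
  exact h

theorem run7 : moebius ((360844 + 7) ^ 2 + 1) = 1 := by
  have h := moebius_list [2, 65106722101] (by
    intro q hq
    simp only [List.mem_cons, List.not_mem_nil, or_false] at hq
    rcases hq with rfl | rfl
    · exact (by norm_num)
    · exact pr65106722101) (by decide +kernel)
  norm_num at h ⊢
  exact h

theorem run8 : moebius ((360844 + 8) ^ 2 + 1) = 1 := by
  have h := moebius_list [5, 26042833181] (by
    intro q hq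
    simp only [List.mem_cons, List.not_mem_nil, or_false] at hq
    rcases hq with rfl | rfl
    · exact (by norm_num)
    · exact pr26042833181) (by decide +kernel)
  norm_num at h ⊢
  exact h

theorem run9 : moebius ((360844 + 9) ^ 2 + 1) = 1 := by
  have h := moebius_list [2, 5, 11717, 1111333] (by
    intro q hq
    simp only [List.mem_cons, List.not_mem_nil, or_false] at hq
    rcases hq with rfl | rfl | rfl | rfl
    · exact (by norm_num)
    · exact (by norm_num)
    · exact pr11717
    · exact pr1111333) (by decide +kernel)
  norm_num at h ⊢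
  exact h

theorem run10 : moebius ((360844 + 10) ^ 2 + 1) = 1 := by
  have h := moebius_list [53, 2456898289] (by
    intro q hq
    simp only [List.mem_cons, List.not_mem_nil, or_false] at hq
    rcases hq with rfl | rfl
    · exact (by norm_num)
    · exact pr2456898289) (by decide +kernel)
  norm_num at h ⊢
  exact h

theorem run11 : moebius ((360844 + 11) ^ 2 + 1) = 1 := by
  have h := moebius_list [2, 17, 37, 103510597] (by
    intro q hq
    simp only [List.mem_cons, List.not_mem_nil, or_false] at hq
    rcases hq with rfl | rfl | rfl | rfl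
    · exact (by norm_num)
    · exact (by norm_num)
    · exact (by norm_num)
    · exact pr103510597) (by decide +kernel)
  norm_num at h ⊢
  exact h

theorem run12 : moebius ((360844 + 12) ^ 2 + 1) = 1 := by
  have h := moebius_list [121169, 1074673] (by
    intro q hq
    simp only [List.mem_cons, List.not_mem_nil, or_false] at hq
    rcases hq with rfl | rfl
    · exact pr121169
    · exact pr1074673) (by decide +kernel)
  norm_num at h ⊢
  exact h

/-- the run of length 13 -/
theorem run13 : ∀ j < 13, moebius ((360844 + j) ^ 2 + 1) = 1 := by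
  intro j hj
  interval_cases j
  · exact run0
  · exact run1
  · exact run2
  · exact run3
  · exact run4
  · exact run5
  · exact run6
  · exact run7
  · exact run8
  · exact run9
  · exact run10
  · exact run11
  · exact run12

/-- one of 14 consecutive integers is `7` or `18` modulo `25` -/
theorem block14 (n : ℕ) : ∃ j < 14, moebius ((n + j) ^ 2 + 1) = 0 := by
  have h : ∃ j < 14, (n + j) % 25 = 7 ∨ (n + j) % 25 = 18 := by
    have h1 : n % 25 < 25 := Nat.mod_lt _ (by norm_num)
    by_cases h2 : n % 25 ≤ 7
    · exact ⟨7 - n % 25, by omega, by omega⟩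
    · by_cases h3 : n % 25 ≤ 18
      · exact ⟨18 - n % 25, by omega, by omega⟩
      · exact ⟨32 - n % 25, by omega, by omega⟩
  obtain ⟨j, hj, h⟩ := h
  refine ⟨j, hj, ?_⟩
  apply moebius_eq_zero_of_not_squarefree
  intro hs
  have h25 : 5 * 5 ∣ (n + j) ^ 2 + 1 := by
    rw [Nat.dvd_iff_mod_eq_zero, Nat.add_mod, Nat.pow_mod]
    rcases h with h | h <;> rw [h]
  have := hs 5 h25
  rw [Nat.isUnit_iff] at this
  omega

end Pool.Agent.Y892.Mob
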